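import Pool.Agent.H61.PO.Ext
import Pool.Agent.H61.PO.Disconn
import Pool.Agent.H61.PO.FinB
import Pool.Agent.H61.PQ.Defs

/-!
# Part U of note 1414 (helper40): independence of the disc, finiteness

If the closed disc of `e` lies in the open disc of `e0` then the restriction
`H((e B)ᶜ) → H((e0 B)ᶜ)` is an isomorphism: onto by `ext_main`, injective by `disconn` and gluing along the circle
of `e0`.  So `h1 ((e B)ᶜ)` does not depend on the disc.
-/

namespace Pool.Agent.H40.PU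

open Set Filter Topology Metric Pool.Agent.H61.PO

section restriction

variable {X : Type*} [TopologicalSpace X]

theorem Zc_anti {A B : Set X} (h : A ⊆ B) : Zc B ≤ Zc A := fun g hg => Coc.mono hg h

theorem Bc_anti {A B : Set X} (h : A ⊆ B) : Bc B ≤ Bc A := fun g hg => Cob.mono hg h

/-- restriction of cohomology classes -/
noncomputable def hres {A B : Set X} (h : A ⊆ B) : Hc B →ₗ[ZMod 2] Hc A :=
  Submodule.mapQ _ _ (Submodule.inclusion (Zc_anti h)) (by
    intro g hg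
    exact Bc_anti h hg)

theorem hres_mk {A B : Set X} (h : A ⊆ B) (g : Zc B) :
    hres h (Submodule.Quotient.mk g) = Submodule.Quotient.mk ⟨g.1, Zc_anti h g.2⟩ := rfl

theorem mk_eq_zero {A : Set X} (g : Zc A) :
    (Submodule.Quotient.mk g : Hc A) = 0 ↔ Cob A g.1 :=
  Submodule.Quotient.mk_eq_zero _

theorem zmod_neg (g : X → X → ZMod 2) : -g = g := by
  funext a b
  have : ∀ z : ZMod 2, -z = z := by decide
  exact this _

theorem mk_eq_mk {A : Set X} (g g' : Zc A) :
    (Submodule.Quotient.mk g : Hc A) = Submodule.Quotient.mk g' ↔ Cob A (g.1 + g'.1) := by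
  rw [Submodule.Quotient.eq]
  show Cob A (g.1 - g'.1) ↔ _
  rw [sub_eq_add_neg, zmod_neg]

theorem h1_eq_of_bij {A B : Set X} (h : A ⊆ B) (hi : ∀ g, Coc B g → Cob A g → Cob B g)
    (hs : ∀ g, Coc A g → ∃ g', Coc B g' ∧ Cob A (g + g')) : h1 B = h1 A := by
  refine LinearEquiv.finrank_eq (LinearEquiv.ofBijective (hres h) ⟨?_, ?_⟩)
  · rw [← LinearMap.ker_eq_bot, LinearMap.ker_eq_bot']
    intro x hx
    obtain ⟨g, rfl⟩ := Submodule.Quotient.mk_surjective _ x
    rw [hres_mk, mk_eq_zero] at hx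
    exact (mk_eq_zero g).2 (hi g.1 g.2 hx)
  · intro y
    obtain ⟨g, rfl⟩ := Submodule.Quotient.mk_surjective _ y
    obtain ⟨g', h1, h2⟩ := hs g.1 g.2
    refine ⟨Submodule.Quotient.mk ⟨g', h1⟩, ?_⟩
    rw [hres_mk]
    exact ((mk_eq_mk _ _).2 h2).symm

end restriction

variable {M : Type*} [MetricSpace M]

theorem inv_cont {e : ℂ → M} (he : IsOpenEmbedding e) :
    ContinuousOn (Function.invFun e) (range e) := by
  rintro _ ⟨z, rfl⟩
  refine ContinuousAt.continuousWithinAt ?_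
  have h1 : Function.invFun e (e z) = z := Function.leftInverse_invFun he.injective z
  unfold ContinuousAt
  rw [← he.map_nhds_eq z, tendsto_map'_iff, h1]
  have h2 : Function.invFun e ∘ e = id := Function.invFun_comp he.injective
  rw [h2]
  exact tendsto_id

theorem cob_image {e : ℂ → M} (he : IsOpenEmbedding e) {Y : Set ℂ} {g : M → M → ZMod 2}
    (h : Cob Y (fun a b => g (e a) (e b))) : Cob (e '' Y) g := by
  have h0 : ∀ z, Function.invFun e (e z) = z := Function.leftInverse_invFun he.injective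
  have h1 := h.pullback (φ := Function.invFun e) (A := e '' Y)
    ((inv_cont he).mono (image_subset_range _ _)) (by
      rintro _ ⟨z, hz, rfl⟩
      rw [h0]
      exact hz)
  refine h1.of_eqOn ?_
  rintro _ ⟨a, -, rfl⟩ _ ⟨b, -, rfl⟩
  simp only [h0]

theorem cob_big {e e0 : ℂ → M} (he : IsOpenEmbedding e) (he0 : IsOpenEmbedding e0)
    (h : e '' closedBall 0 1 ⊆ e0 '' ball 0 1) {g : M → M → ZMod 2}
    (hg : Coc (e '' ball 0 1)ᶜ g) (hc : Cob (e0 '' ball 0 1)ᶜ g) : Cob (e '' ball 0 1)ᶜ g := by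
  set D : Set M := e '' ball 0 1 with hD
  have hDo : IsOpen D := he.isOpenMap _ isOpen_ball
  have hDsub : D ⊆ e0 '' ball 0 1 := (image_mono ball_subset_closedBall).trans h
  set Y : Set ℂ := closedBall 0 1 ∩ e0 ⁻¹' Dᶜ with hY
  have hYc : IsCompact Y :=
    (isCompact_closedBall 0 1).inter_right (hDo.isClosed_compl.preimage he0.continuous)
  have hout : ∀ z, z ∉ ball (0 : ℂ) 1 → e0 z ∉ e0 '' ball 0 1 := by
    rintro z hz ⟨w, hw, hwz⟩
    exact hz (he0.injective hwz ▸ hw)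
  have hsph : ∀ z ∈ sphere (0 : ℂ) 1, z ∉ ball (0 : ℂ) 1 := by
    intro z hz hb
    rw [mem_sphere] at hz
    rw [mem_ball, hz] at hb
    exact lt_irrefl _ hb
  have hSY : sphere (0 : ℂ) 1 ⊆ Y := fun z hz =>
    ⟨sphere_subset_closedBall hz, fun hzD => hout z (hsph z hz) (hDsub hzD)⟩
  have hcY : Coc Y (fun a b => g (e0 a) (e0 b)) :=
    hg.pullback he0.continuous.continuousOn (fun z hz => hz.2)
  have hcS : Cob (sphere (0 : ℂ) 1) (fun a b => g (e0 a) (e0 b)) :=
    hc.pullback he0.continuous.continuousOn (fun z hz => hout z (hsph z hz))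
  have hcob : Cob Y (fun a b => g (e0 a) (e0 b)) := by
    by_contra hn
    refine disconn hYc one_pos hSY (fun z hz => hz.1) hcY hcS hn ?_
    have h1 : ball (0 : ℂ) 1 \ Y = e0 ⁻¹' D := by
      ext z
      constructor
      · rintro ⟨hz, hzY⟩
        by_contra hzD
        exact hzY ⟨ball_subset_closedBall hz, hzD⟩
      · intro hzD
        obtain ⟨w, hw, hwz⟩ := hDsub hzD
        rw [he0.injective hwz] at hw
        exact ⟨hw, fun hzY => hzY.2 hzD⟩
    rw [h1]
    refine IsPreconnected.preimage_of_isOpenMap ?_ he0.injective he0.isOpenMap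
      (hDsub.trans (image_subset_range _ _))
    exact (convex_ball (0 : ℂ) 1).isPreconnected.image _ he.continuous.continuousOn
  have hcob2 : Cob (e0 '' Y) g := cob_image he0 hcob
  have hunion : (e0 '' ball 0 1)ᶜ ∪ e0 '' Y = Dᶜ := by
    ext x
    constructor
    · rintro (hx | ⟨z, hz, rfl⟩)
      · exact fun hxD => hx (hDsub hxD)
      · exact hz.2
    · intro hx
      by_cases hxb : x ∈ e0 '' ball 0 1
      · obtain ⟨z, hz, rfl⟩ := hxb
        exact Or.inr ⟨z, ⟨ball_subset_closedBall hz, hx⟩, rfl⟩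
      · exact Or.inl hxb
  have hinter : (e0 '' ball 0 1)ᶜ ∩ e0 '' Y = e0 '' sphere 0 1 := by
    ext x
    constructor
    · rintro ⟨hx, z, hz, rfl⟩
      refine ⟨z, ?_, rfl⟩
      have h1 : z ∉ ball (0 : ℂ) 1 := fun h => hx ⟨z, h, rfl⟩
      have h2 := hz.1
      rw [mem_closedBall] at h2
      rw [mem_ball, not_lt] at h1
      exact le_antisymm h2 h1
    · rintro ⟨z, hz, rfl⟩
      exact ⟨hout z (hsph z hz), z, hSY hz, rfl⟩
  have hfin := glueCob_conn (A := (e0 '' ball 0 1)ᶜ) (B := e0 '' Y)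
    (he0.isOpenMap _ isOpen_ball).isClosed_compl (hYc.image he0.continuous).isClosed
    (hunion ▸ hg) hc hcob2 (by
      rw [hinter]
      exact (SCC.preconn (scc_sphere one_pos)).image _ he0.continuous.continuousOn)
  rwa [hunion] at hfin

theorem h1_step [CompactSpace M] (hM : Surf M) {e e0 : ℂ → M} (he : IsOpenEmbedding e)
    (he0 : IsOpenEmbedding e0) (h : e '' closedBall 0 1 ⊆ e0 '' ball 0 1) :
    h1 ((e '' ball 0 1)ᶜ) = h1 ((e0 '' ball 0 1)ᶜ) := by
  have hsub : (e0 '' ball 0 1)ᶜ ⊆ (e '' ball 0 1)ᶜ :=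
    compl_subset_compl.2 ((image_mono ball_subset_closedBall).trans h)
  refine h1_eq_of_bij hsub (fun g hg hc => cob_big he he0 h hg hc) ?_
  intro g hg
  have h1 : (univ : Set M) \ e0 '' ball 0 1 = (e0 '' ball 0 1)ᶜ := by
    rw [compl_eq_univ_sdiff]
  have h2 : (univ : Set M) \ e '' ball 0 1 = (e '' ball 0 1)ᶜ := by
    rw [compl_eq_univ_sdiff]
  have := ext_main hM isCompact_univ (he0.isOpenMap _ isOpen_ball) (subset_univ _)
    ((convex_ball (0 : ℂ) 1).isPreconnected.image _ he0.continuous.continuousOn) he h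
    (g := g) (by rw [h1]; exact hg)
  rwa [h1, h2] at this

/-- two discs which meet have the same `h1` -/
theorem h1_meet [CompactSpace M] (hM : Surf M) {e e' : ℂ → M} (he : IsOpenEmbedding e)
    (he' : IsOpenEmbedding e') (h : (e '' ball 0 1 ∩ e' '' ball 0 1).Nonempty) :
    h1 ((e '' ball 0 1)ᶜ) = h1 ((e' '' ball 0 1)ᶜ) := by
  obtain ⟨x, hx⟩ := h
  have hO : IsOpen (e '' ball 0 1 ∩ e' '' ball 0 1) :=
    (he.isOpenMap _ isOpen_ball).inter (he'.isOpenMap _ isOpen_ball)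
  obtain ⟨d, hd, -, hr⟩ := hM x _ (hO.mem_nhds hx)
  have hsub : d '' closedBall 0 1 ⊆ e '' ball 0 1 ∩ e' '' ball 0 1 :=
    (image_subset_range _ _).trans hr
  rw [← h1_step hM hd he (hsub.trans inter_subset_left),
    ← h1_step hM hd he' (hsub.trans inter_subset_right)]

theorem h1_indep [CompactSpace M] [ConnectedSpace M] (hM : Surf M) {e e' : ℂ → M}
    (he : IsOpenEmbedding e) (he' : IsOpenEmbedding e') :
    h1 ((e '' ball 0 1)ᶜ) = h1 ((e' '' ball 0 1)ᶜ) := by
  set S : Set M := {x | ∃ d : ℂ → M, IsOpenEmbedding d ∧ x ∈ d '' ball 0 1 ∧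
    h1 ((d '' ball 0 1)ᶜ) = h1 ((e '' ball 0 1)ᶜ)} with hS
  have h0 : (0 : ℂ) ∈ ball (0 : ℂ) 1 := mem_ball_self one_pos
  have hopen : IsOpen S := by
    rw [isOpen_iff_mem_nhds]
    rintro x ⟨d, hd, hx, hdh⟩
    filter_upwards [(hd.isOpenMap _ isOpen_ball).mem_nhds hx] with y hy
    exact ⟨d, hd, hy, hdh⟩
  have hclosed : IsOpen Sᶜ := by
    rw [isOpen_iff_mem_nhds]
    intro x hx
    obtain ⟨d, hd, hd0, -⟩ := hM x univ univ_mem
    have hxd : x ∈ d '' ball 0 1 := ⟨0, h0, hd0⟩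
    filter_upwards [(hd.isOpenMap _ isOpen_ball).mem_nhds hxd] with y hy
    rintro ⟨d', hd', hy', hdh⟩
    exact hx ⟨d, hd, hxd, (h1_meet hM hd hd' ⟨y, hy, hy'⟩).trans hdh⟩
  have hne : S.Nonempty := ⟨e 0, e, he, ⟨0, h0, rfl⟩, rfl⟩
  have huniv : S = univ := IsClopen.eq_univ ⟨isOpen_compl_iff.1 hclosed, hopen⟩ hne
  have h1 : e' 0 ∈ S := by
    rw [huniv]
    trivial
  obtain ⟨d, hd, hx, hdh⟩ := h1
  rw [← hdh]
  exact h1_meet hM hd he' ⟨e' 0, hx, 0, h0, rfl⟩

theorem hc_finite [CompactSpace M] (hM : Surf M) {e : ℂ → M} (he : IsOpenEmbedding e) :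
    Finite (Hc (e '' ball 0 1)ᶜ) := by
  obtain ⟨N, hN⟩ := fin_disc hM
  obtain ⟨data, hdata⟩ := hN e he
  refine Finite.of_injective (β := Fin N)
    (fun x : Hc (e '' ball 0 1)ᶜ => data (Submodule.Quotient.mk_surjective _ x).choose.1) ?_
  intro x y hxy
  have hx := (Submodule.Quotient.mk_surjective _ x).choose_spec
  have hy := (Submodule.Quotient.mk_surjective _ y).choose_spec
  have h := hdata _ _ (Submodule.Quotient.mk_surjective _ x).choose.2
    (Submodule.Quotient.mk_surjective _ y).choose.2 hxy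
  rw [← hx, ← hy]
  exact (mk_eq_mk _ _).2 h

theorem hc_module_finite [CompactSpace M] (hM : Surf M) {e : ℂ → M} (he : IsOpenEmbedding e) :
    Module.Finite (ZMod 2) (Hc (e '' ball 0 1)ᶜ) := by
  haveI := hc_finite hM he
  exact Module.Finite.of_finite

end Pool.Agent.H40.PU
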